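import Pool.Agent.H664.EX.Stm

/-! JOB AXK (project EX of helper664): Ax's theorem for a derivation of a function field, transported
from the complex numbers. -/

set_option autoImplicit false

namespace Pool.Agent.H356.EX

open Cardinal Pool.Agent.Y562.SX Pool.Agent.TH813 Pool.Agent.H664.EX

/-- Derivations extend along formally etale algebras. -/
theorem ext_der {R S T : Type*} [CommRing R] [CommRing S] [CommRing T] [Algebra R S]
    [Algebra R T] [Algebra S T] [IsScalarTower R S T] [Algebra.FormallyEtale S T]
    (D : Derivation R S S) :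
    ∃ D' : Derivation R T T, ∀ s, D' (algebraMap S T s) = algebraMap S T (D s) := by
  have hb := KaehlerDifferential.isBaseChange_of_formallyEtale R S T
  let D1 : Derivation R S T := (Algebra.linearMap S T).compDer D
  refine ⟨(hb.lift D1.liftKaehlerDifferential).compDer (KaehlerDifferential.D R T), fun s => ?_⟩
  have h1 : KaehlerDifferential.D R T (algebraMap S T s)
      = KaehlerDifferential.map R R S T (KaehlerDifferential.D R S s) := by
    rw [KaehlerDifferential.map_D]
  show hb.lift D1.liftKaehlerDifferential (KaehlerDifferential.D R T (algebraMap S T s)) = _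
  rw [h1, hb.lift_eq, Derivation.liftKaehlerDifferential_comp_D]
  rfl

/-- a derivation of `ℂ` is a derivation over its constants -/
noncomputable def overC (D₁ : Derivation ℚ ℂ ℂ) : Derivation (cst D₁) ℂ ℂ where
  toFun := D₁
  map_add' := fun a b => map_add _ _ _
  map_smul' := by
    intro c w
    have hc : D₁ (c : ℂ) = 0 := c.2
    change D₁ ((c : ℂ) * w) = (c : ℂ) * D₁ w
    rw [Derivation.leibniz, hc, smul_zero, add_zero, smul_eq_mul]
  map_one_eq_zero' := D₁.map_one_eq_zero
  leibniz' := fun a b => D₁.leibniz a b

theorem overC_apply (D₁ : Derivation ℚ ℂ ℂ) (w : ℂ) : overC D₁ w = D₁ w := rfl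

/-- the constants are algebraically closed in `ℂ` -/
theorem cst_alg (D₁ : Derivation ℚ ℂ ℂ) {w : ℂ} (hw : IsAlgebraic (cst D₁) w) : D₁ w = 0 := by
  have hint : IsIntegral (cst D₁) w := hw.isIntegral
  have h1 := (overC D₁).map_aeval (minpoly (cst D₁) w) w
  rw [minpoly.aeval, map_zero] at h1
  have hsep : (minpoly (cst D₁) w).Separable := (minpoly.irreducible hint).separable
  have h2 : Polynomial.aeval w (Polynomial.derivative (minpoly (cst D₁) w)) ≠ 0 :=
    hsep.aeval_derivative_ne_zero (minpoly.aeval _ _)
  rw [smul_eq_mul] at h1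
  have h3 := (mul_eq_zero.1 h1.symm).resolve_left h2
  exact h3

/-- a field which is algebraic over a finitely generated extension of `ℂ` embeds in `ℂ`, with an
algebraically closed intermediate field -/
theorem equivC (K : Type) [Field K] [Algebra ℂ K] (s : Finset K)
    (hs : ∀ f : K, Al (s : Set K) f) : Nonempty (AlgebraicClosure K ≃+* ℂ) := by
  have : CharZero K := charZero_of_injective_algebraMap (algebraMap ℂ K).injective
  have : CharZero (AlgebraicClosure K) :=
    charZero_of_injective_algebraMap (algebraMap K (AlgebraicClosure K)).injective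
  have h1 : #(IntermediateField.adjoin ℂ (s : Set K)) ≤ 𝔠 := by
    refine (IntermediateField.cardinalMk_adjoin_le ℂ (s : Set K)).trans ?_
    rw [Cardinal.mk_complex]
    refine max_le (max_le le_rfl ?_) aleph0_le_continuum
    exact (Cardinal.lt_aleph0_of_finite _).le.trans aleph0_le_continuum
  have h2 : #K ≤ 𝔠 := by
    have : Algebra.IsAlgebraic (IntermediateField.adjoin ℂ (s : Set K)) K := ⟨hs⟩
    refine (Algebra.IsAlgebraic.cardinalMk_le_max (IntermediateField.adjoin ℂ (s : Set K)) K).trans
      (max_le h1 aleph0_le_continuum)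
  have h3 : #(AlgebraicClosure K) ≤ 𝔠 :=
    (Algebra.IsAlgebraic.cardinalMk_le_max K (AlgebraicClosure K)).trans
      (max_le h2 aleph0_le_continuum)
  have h4 : 𝔠 ≤ #(AlgebraicClosure K) := by
    rw [← Cardinal.mk_complex]
    exact Cardinal.mk_le_of_injective
      (((algebraMap K (AlgebraicClosure K)).comp (algebraMap ℂ K)).injective)
  have h5 : #(AlgebraicClosure K) = #ℂ := by
    rw [Cardinal.mk_complex]
    exact le_antisymm h3 h4
  refine IsAlgClosed.ringEquiv_of_equiv_of_charZero ?_ (Cardinal.eq.1 h5)
  exact Cardinal.aleph0_lt_continuum.trans_le h4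

theorem axK : Pool.Agent.H664.EX.S_axK := by
  intro K _ _ s D n m x y v hs hn hy hxy hq hv
  have : CharZero K := charZero_of_injective_algebraMap (algebraMap ℂ K).injective
  obtain ⟨φ⟩ := equivC K s hs
  let L := AlgebraicClosure K
  have : Algebra.FormallyEtale K L := Algebra.FormallyEtale.of_isSeparable K L
  obtain ⟨D', hD'⟩ := ext_der (T := L) (D.restrictScalars ℚ)
  -- the derivation of `ℂ`
  let D₀ : Derivation ℚ ℂ ℂ :=
    { toFun := fun w => φ (D' (φ.symm w))
      map_add' := fun a b => by rw [map_add, map_add, map_add]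
      map_smul' := fun c w => by
        rw [RingHom.id_apply, map_rat_smul, map_rat_smul, map_rat_smul]
      map_one_eq_zero' := by
        change φ (D' (φ.symm 1)) = 0
        rw [map_one, Derivation.map_one_eq_zero, map_zero]
      leibniz' := fun a b => by
        change φ (D' (φ.symm (a * b))) = a • φ (D' (φ.symm b)) + b • φ (D' (φ.symm a))
        rw [map_mul, Derivation.leibniz, map_add, smul_eq_mul, smul_eq_mul, map_mul, map_mul,
          RingEquiv.apply_symm_apply, RingEquiv.apply_symm_apply, smul_eq_mul, smul_eq_mul] }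
  let ψ : K →+* ℂ := (φ : L →+* ℂ).comp (algebraMap K L)
  have hψ : ∀ f : K, D₀ (ψ f) = ψ (D f) := by
    intro f
    change φ (D' (φ.symm (φ (algebraMap K L f)))) = φ (algebraMap K L (D f))
    rw [RingEquiv.symm_apply_apply, hD']
    rfl
  refine ax D₀ hn (x := fun i => ψ (x i)) (y := fun i => ψ (y i)) (fun i => ?_) (fun i => ?_) ?_
    (fun j => ψ (v j)) ?_
  · exact (map_ne_zero ψ).2 (hy i)
  · rw [hψ, hψ, hxy, map_mul]
  · intro q hq0
    apply hq
    apply ψ.injective
    rw [map_sum, map_zero, ← hq0]
    refine Finset.sum_congr rfl fun i _ => ?_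
    rw [map_mul, map_ratCast, hψ]
  · intro D₁ hD₁
    have hA : ∀ a ∈ IntermediateField.adjoin ℂ ({c | D c = 0} ∪ Set.range v), D₁.1 (ψ a) = 0 := by
      intro a ha
      induction ha using IntermediateField.adjoin_induction with
      | mem a ha =>
        rcases ha with ha | ⟨j, rfl⟩
        · refine D₁.2 (ψ a) ?_
          change D₀ (ψ a) = 0
          rw [hψ, ha, map_zero]
        · exact hD₁ j
      | algebraMap a =>
        refine D₁.2 (ψ (algebraMap ℂ K a)) ?_
        change D₀ (ψ (algebraMap ℂ K a)) = 0
        rw [hψ, Derivation.map_algebraMap, map_zero]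
      | add a b _ _ ha hb => rw [map_add, map_add, ha, hb, add_zero]
      | inv a _ ha => rw [map_inv₀, Derivation.leibniz_inv, ha, smul_zero]
      | mul a b _ _ ha hb =>
        rw [map_mul, Derivation.leibniz, ha, hb, smul_zero, smul_zero, add_zero]
    have hall : ∀ f : K, D₁.1 (ψ f) = 0 := by
      intro f
      obtain ⟨p, hp, hpf⟩ := hv f
      apply cst_alg
      let g : IntermediateField.adjoin ℂ ({c | D c = 0} ∪ Set.range v) →+* cst D₁.1 :=
        { toFun := fun a => ⟨ψ a, hA a a.2⟩
          map_one' := Subtype.ext (map_one ψ)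
          map_mul' := fun a b => Subtype.ext (map_mul ψ _ _)
          map_zero' := Subtype.ext (map_zero ψ)
          map_add' := fun a b => Subtype.ext (map_add ψ _ _) }
      refine ⟨p.map g, (Polynomial.map_ne_zero_iff g.injective).2 hp, ?_⟩
      rw [Polynomial.aeval_def, Polynomial.eval₂_map]
      have h1 : (algebraMap (cst D₁.1) ℂ).comp g = ψ.comp
          (algebraMap (IntermediateField.adjoin ℂ ({c | D c = 0} ∪ Set.range v)) K) := by
        ext a
        rfl
      rw [h1, ← Polynomial.hom_eval₂]
      have h2 : Polynomial.eval₂ (algebraMap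
        (IntermediateField.adjoin ℂ ({c | D c = 0} ∪ Set.range v)) K) f p = 0 := hpf
      rw [h2, map_zero]
    intro i
    exact ⟨hall _, hall _⟩

end Pool.Agent.H356.EX
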