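import Pool.Agent.H525.EX.Stm6

/-!
# Project EX (helper525), task BRU: the translation `u = x ^ 2 + X y ^ 2` (helper356)
-/

set_option autoImplicit false
set_option linter.unusedSectionVars false

namespace Pool.Agent.H356.EX

open Polynomial
open Pool.Agent.H525.QF Pool.Agent.H525.EX
open scoped Classical

section

variable {K : Type} [Field K] [Fintype K] [CharP K 2]

theorem pow2_coeff (z : K[X]) (i : ℕ) :
    (z ^ 2).coeff i = if 2 ∣ i then z.coeff (i / 2) ^ 2 else 0 := by
  have e1 : z ^ 2 = expand K 2 (z.map (frobenius K 2)) := by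
    rw [← map_expand, map_frobenius_expand]
  rw [e1, coeff_expand (by norm_num)]
  split_ifs
  · rw [coeff_map, frobenius_def]
  · rfl

/-- `x ^ 2 + X y ^ 2` -/
noncomputable def T (v : K[X] × K[X]) : K[X] := v.1 ^ 2 + X * v.2 ^ 2

theorem T_even (v : K[X] × K[X]) (j : ℕ) : (T v).coeff (2 * j) = v.1.coeff j ^ 2 := by
  unfold T
  rw [coeff_add, pow2_coeff, if_pos (dvd_mul_right 2 j), Nat.mul_div_cancel_left _ (by norm_num)]
  rcases Nat.eq_zero_or_pos j with hj | hj
  · subst hj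
    rw [mul_zero, mul_coeff_zero, coeff_X_zero, zero_mul, add_zero]
  · obtain ⟨i, rfl⟩ : ∃ i, j = i + 1 := ⟨j - 1, by omega⟩
    rw [show 2 * (i + 1) = 2 * i + 1 + 1 by ring, coeff_X_mul, pow2_coeff, if_neg (by omega),
      add_zero]

theorem T_odd (v : K[X] × K[X]) (j : ℕ) : (T v).coeff (2 * j + 1) = v.2.coeff j ^ 2 := by
  unfold T
  rw [coeff_add, pow2_coeff, if_neg (by omega), zero_add, coeff_X_mul, pow2_coeff,
    if_pos (dvd_mul_right 2 j), Nat.mul_div_cancel_left _ (by norm_num)]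

theorem sq_inj {a b : K} (h : a ^ 2 = b ^ 2) : a = b :=
  frobenius_inj K 2 (by rw [frobenius_def, frobenius_def]; exact h)

theorem T_inj : Function.Injective (T (K := K)) := by
  intro v v' h
  refine Prod.ext ?_ ?_
  · ext j
    apply sq_inj
    rw [← T_even, ← T_even, h]
  · ext j
    apply sq_inj
    rw [← T_odd, ← T_odd, h]

theorem T_surj (u : K[X]) : ∃ v, T v = u := by
  have hs : ∀ c : K, ∃ d : K, d ^ 2 = c := by
    intro c
    obtain ⟨a, ha⟩ := (bijective_frobenius K 2).2 c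
    exact ⟨a, by rw [← ha, frobenius_def]⟩
  choose r hr using hs
  have hr0 : r 0 = 0 := by
    have := hr 0
    exact pow_eq_zero_iff (by norm_num) |>.1 this
  let x : K[X] := ∑ i ∈ Finset.range (u.natDegree + 1), C (r (u.coeff (2 * i))) * X ^ i
  let y : K[X] := ∑ i ∈ Finset.range (u.natDegree + 1), C (r (u.coeff (2 * i + 1))) * X ^ i
  have hx : ∀ j, x.coeff j = r (u.coeff (2 * j)) := by
    intro j
    simp only [x, finsetSum_coeff, coeff_C_mul_X_pow]
    rw [Finset.sum_ite_eq]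
    split_ifs with hj
    · rfl
    · rw [Finset.mem_range, not_lt] at hj
      rw [coeff_eq_zero_of_natDegree_lt (by omega), hr0]
  have hy : ∀ j, y.coeff j = r (u.coeff (2 * j + 1)) := by
    intro j
    simp only [y, finsetSum_coeff, coeff_C_mul_X_pow]
    rw [Finset.sum_ite_eq]
    split_ifs with hj
    · rfl
    · rw [Finset.mem_range, not_lt] at hj
      rw [coeff_eq_zero_of_natDegree_lt (by omega), hr0]
  refine ⟨(x, y), ?_⟩
  ext i
  rcases Nat.even_or_odd' i with ⟨j, rfl | rfl⟩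
  · rw [T_even, hx, hr]
  · rw [T_odd, hy, hr]

theorem T_der (v : K[X] × K[X]) : derivative (T v) = v.2 ^ 2 := by
  have h2 : (2 : K[X]) = 0 := by
    have := CharP.cast_eq_zero K[X] 2
    exact_mod_cast this
  unfold T
  rw [derivative_add, derivative_mul, derivative_X, derivative_sq, derivative_sq]
  have e : (C 2 : K[X]) = 0 := by
    rw [← h2]
    rfl
  rw [e]
  ring

theorem T_F2 (v : K[X] × K[X]) : (T v) ^ 2 + X * (derivative (T v)) ^ 2 = F2 v := by
  have h2 : (2 : K[X]) = 0 := by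
    have := CharP.cast_eq_zero K[X] 2
    exact_mod_cast this
  rw [T_der]
  unfold T F2
  linear_combination v.1 ^ 2 * X * v.2 ^ 2 * h2

theorem mon_iff (p : K[X]) (N : ℕ) :
    p.Monic ∧ p.natDegree = N ↔ p.coeff N = 1 ∧ ∀ i, N < i → p.coeff i = 0 := by
  constructor
  · rintro ⟨h1, rfl⟩
    exact ⟨h1.coeff_natDegree, fun i hi => coeff_eq_zero_of_natDegree_lt hi⟩
  · rintro ⟨h1, h2⟩
    have h3 : p.natDegree ≤ N := natDegree_le_iff_coeff_eq_zero.2 h2
    have h4 : p.natDegree = N :=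
      le_antisymm h3 (le_natDegree_of_ne_zero (by rw [h1]; exact one_ne_zero))
    refine ⟨?_, h4⟩
    unfold Monic leadingCoeff
    rw [h4, h1]

theorem deg1 (v : K[X] × K[X]) (m : ℕ) :
    ((T v).Monic ∧ (T v).natDegree = 2 * m + 1) ↔ v ∈ (lt K (m + 1)) ×ˢ (mon K m) := by
  rw [Finset.mem_product, mem_lt, mem_mon, mon_iff, mon_iff, degree_lt_iff_coeff_zero]
  constructor
  · rintro ⟨h1, h2⟩
    refine ⟨fun j hj => ?_, ?_, fun j hj => ?_⟩
    · have h3 := h2 (2 * j) (by omega)
      rw [T_even] at h3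
      exact pow_eq_zero_iff (by norm_num) |>.1 h3
    · rw [T_odd] at h1
      exact sq_inj (by rw [h1, one_pow])
    · have h3 := h2 (2 * j + 1) (by omega)
      rw [T_odd] at h3
      exact pow_eq_zero_iff (by norm_num) |>.1 h3
  · rintro ⟨h1, h2, h3⟩
    refine ⟨by rw [T_odd, h2, one_pow], fun i hi => ?_⟩
    rcases Nat.even_or_odd' i with ⟨j, rfl | rfl⟩
    · rw [T_even, h1 j (by omega), zero_pow (by norm_num)]
    · rw [T_odd, h3 j (by omega), zero_pow (by norm_num)]

theorem deg0 (v : K[X] × K[X]) (m : ℕ) :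
    ((T v).Monic ∧ (T v).natDegree = 2 * m) ↔ v ∈ (mon K m) ×ˢ (lt K m) := by
  rw [Finset.mem_product, mem_lt, mem_mon, mon_iff, mon_iff, degree_lt_iff_coeff_zero]
  constructor
  · rintro ⟨h1, h2⟩
    refine ⟨⟨?_, fun j hj => ?_⟩, fun j hj => ?_⟩
    · rw [T_even] at h1
      exact sq_inj (by rw [h1, one_pow])
    · have h3 := h2 (2 * j) (by omega)
      rw [T_even] at h3
      exact pow_eq_zero_iff (by norm_num) |>.1 h3
    · have h3 := h2 (2 * j + 1) (by omega)
      rw [T_odd] at h3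
      exact pow_eq_zero_iff (by norm_num) |>.1 h3
  · rintro ⟨⟨h1, h2⟩, h3⟩
    refine ⟨by rw [T_even, h1, one_pow], fun i hi => ?_⟩
    rcases Nat.even_or_odd' i with ⟨j, rfl | rfl⟩
    · rw [T_even, h2 j (by omega), zero_pow (by norm_num)]
    · rw [T_odd, h3 j (by omega), zero_pow (by norm_num)]

theorem count (N : ℕ) (A : Finset (K[X] × K[X]))
    (hA : ∀ v, ((T v).Monic ∧ (T v).natDegree = N) ↔ v ∈ A) :
    {u : K[X] | u.Monic ∧ u.natDegree = N ∧
      Irreducible (u ^ 2 + X * (derivative u) ^ 2)}.ncard =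
      (A.filter (fun v => Irreducible (F2 v))).card := by
  have h : {u : K[X] | u.Monic ∧ u.natDegree = N ∧
      Irreducible (u ^ 2 + X * (derivative u) ^ 2)} =
      T '' (↑(A.filter (fun v => Irreducible (F2 v))) : Set (K[X] × K[X])) := by
    ext u
    rw [Set.mem_setOf_eq, Set.mem_image]
    constructor
    · rintro ⟨h1, h2, h3⟩
      obtain ⟨v, rfl⟩ := T_surj u
      refine ⟨v, ?_, rfl⟩
      rw [Finset.mem_coe, Finset.mem_filter]
      rw [T_F2] at h3
      exact ⟨(hA v).1 ⟨h1, h2⟩, h3⟩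
    · rintro ⟨v, hv, rfl⟩
      rw [Finset.mem_coe, Finset.mem_filter] at hv
      rw [T_F2]
      exact ⟨((hA v).2 hv.1).1, ((hA v).2 hv.1).2, hv.2⟩
  rw [h, Set.ncard_image_of_injective _ T_inj, Set.ncard_coe_finset]

end

/-- **BRU** -/
theorem t_bru : S_bru := by
  intro K _ _ _ m
  exact ⟨count (2 * m + 1) _ fun v => deg1 v m, count (2 * m) _ fun v => deg0 v m⟩

end Pool.Agent.H356.EX
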